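import Mathlib

/-!
General windmill lemma.  A group `G` acts on a set `X` of points and on a set `ι` of axes; each
axis `i` has a rotation `r i : G`, a coordinate difference `a i : X → X → ℤ` and a set of points
`O i`.  Under a Behrstock type inequality and if the rotations translate by more than
`4 * K + 18 * θ`, the group generated by all rotations satisfies a Greendlinger property.
-/

set_option linter.unusedSectionVars false

namespace Pool.Agent.GenWindmill

variable {G ι X : Type*} [Group G] [MulAction G ι] [MulAction G X]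

/-- Abstract rotation system. `lt x i j` means: the axis `i` is closer to the point `x` than the
axis `j`. -/
structure Sys (r : ι → G) (a : ι → X → X → ℤ) (O : ι → Set X) (lt : X → ι → ι → Prop)
    (n θ K : ℤ) : Prop where
  rconj : ∀ (g : G) i, r (g • i) = g * r i * g⁻¹
  rfix : ∀ i, r i • i = i
  nonempty : ∀ i, (O i).Nonempty
  add : ∀ i x y z, a i x z = a i x y + a i y z
  equiv : ∀ i (g : G) x y, a (g • i) (g • x) (g • y) = a i x y
  shift : ∀ i x y, a i x (r i • y) = a i x y + n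
  Oequiv : ∀ i (g : G) x, x ∈ O i → g • x ∈ O (g • i)
  bdd : ∀ i j, i ≠ j → ∀ x ∈ O j, ∀ y ∈ O j, |a i x y| ≤ θ
  beh : ∀ i j, i ≠ j → ∀ x, ∀ y ∈ O i, ∀ z ∈ O j, |a i x z| ≤ θ ∨ |a j x y| ≤ θ
  wf : ∀ x, WellFounded (lt x)
  lt_equiv : ∀ (g : G) x i j, lt (g • x) (g • i) (g • j) → lt x i j
  sep : ∀ i j, i ≠ j → ∀ x, ∀ y ∈ O i, K < |a j x y| → lt x j i

variable {r : ι → G} {a : ι → X → X → ℤ} {O : ι → Set X} {lt : X → ι → ι → Prop} {n θ K : ℤ}

/-- The subgroup generated by the rotations with index in `W`. -/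
def rotN (r : ι → G) (W : Set ι) : Subgroup G := Subgroup.closure (r '' W)

theorem a_self (S : Sys r a O lt n θ K) (i : ι) (x : X) : a i x x = 0 := by
  have := S.add i x x x
  omega

theorem a_inv (S : Sys r a O lt n θ K) (i : ι) (g : G) (x y : X) :
    a (g⁻¹ • i) (g⁻¹ • x) (g⁻¹ • y) = a i x y := S.equiv i g⁻¹ x y

theorem a_npow (S : Sys r a O lt n θ K) (i : ι) (x y : X) (k : ℕ) :
    a i x ((r i) ^ k • y) = a i x y + k * n := by
  induction k with
  | zero => simp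
  | succ k ih =>
    rw [pow_succ', mul_smul, S.shift i, ih]
    push_cast
    ring

theorem a_zpow (S : Sys r a O lt n θ K) (i : ι) (x y : X) (k : ℤ) :
    a i x ((r i) ^ k • y) = a i x y + k * n := by
  rcases Int.eq_nat_or_neg k with ⟨m, rfl | rfl⟩
  · rw [zpow_natCast]
    exact a_npow S i x y m
  · have h1 := a_npow S i x ((r i) ^ (-(m : ℤ)) • y) m
    rw [← zpow_natCast, ← mul_smul, ← zpow_add] at h1
    simp only [add_neg_cancel, zpow_zero, one_smul] at h1
    rw [h1]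
    ring

theorem rfix_zpow (S : Sys r a O lt n θ K) (i : ι) (k : ℤ) : (r i) ^ k • i = i := by
  have h1 : r i ∈ MulAction.stabilizer G i := S.rfix i
  exact Subgroup.zpow_mem _ h1 k

theorem O_zpow (S : Sys r a O lt n θ K) {i : ι} {x : X} (hx : x ∈ O i) (k : ℤ) :
    (r i) ^ k • x ∈ O i := by
  have := S.Oequiv i ((r i) ^ k) x hx
  rwa [rfix_zpow S] at this

theorem O_inv (S : Sys r a O lt n θ K) (i : ι) (g : G) {x : X}
    (hx : x ∈ O (g • i)) : g⁻¹ • x ∈ O i := by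
  have := S.Oequiv _ g⁻¹ x hx
  rwa [inv_smul_smul] at this

/-- The windmill of `W`. -/
def U (r : ι → G) (O : ι → Set X) (p : X) (W : Set ι) : Set X :=
  {x | (∃ g ∈ rotN r W, x = g • p) ∨ ∃ h ∈ W, x ∈ O h}

theorem rotN_mono {W W' : Set ι} (h : W ⊆ W') : rotN r W ≤ rotN r W' :=
  Subgroup.closure_mono (Set.image_mono h)

theorem U_mono {p : X} {W W' : Set ι} (h : W ⊆ W') : U r O p W ⊆ U r O p W' := by
  rintro x (⟨g, hg, rfl⟩ | ⟨k, hk, hx⟩)
  · exact Or.inl ⟨g, rotN_mono h hg, rfl⟩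
  · exact Or.inr ⟨k, h hk, hx⟩

theorem p_mem_U {p : X} {W : Set ι} : p ∈ U r O p W :=
  Or.inl ⟨1, Subgroup.one_mem _, by simp⟩

theorem rotN_mem {W : Set ι} {b : ι} (hb : b ∈ W) : r b ∈ rotN r W :=
  Subgroup.subset_closure ⟨b, hb, rfl⟩

theorem rotN_zpow {W : Set ι} {b : ι} (hb : b ∈ W) (k : ℤ) : (r b) ^ k ∈ rotN r W :=
  Subgroup.zpow_mem _ (rotN_mem hb) k

/-- Good windmills. -/
structure Good (r : ι → G) (a : ι → X → X → ℤ) (O : ι → Set X) (n θ K : ℤ) (p : X)
    (W : Set ι) : Prop where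
  inv : ∀ h ∈ W, ∀ g ∈ rotN r W, g • h ∈ W
  bd : ∀ z ∉ W, ∀ u ∈ U r O p W, ∀ v ∈ U r O p W, |a z u v| ≤ 2 * K + 6 * θ
  grn : ∀ g ∈ rotN r W, g ≠ 1 → ∃ h ∈ W, ∃ k : ℤ, k ≠ 0 ∧
    |a h p (g • p) - k * n| ≤ 2 * K + 8 * θ

theorem good_empty (S : Sys r a O lt n θ K) (hθ : 0 ≤ θ) (hK : 0 ≤ K) (p : X) :
    Good r a O n θ K p ∅ := by
  have hr : rotN r (∅ : Set ι) = ⊥ := by
    unfold rotN
    simp
  refine ⟨fun h hh => hh.elim, ?_, ?_⟩
  · intro z _ u hu v hv
    rcases hu with ⟨g, hg, rfl⟩ | ⟨h, hh, _⟩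
    swap
    · exact hh.elim
    rcases hv with ⟨g', hg', rfl⟩ | ⟨h, hh, _⟩
    swap
    · exact hh.elim
    rw [hr, Subgroup.mem_bot] at hg hg'
    subst hg
    subst hg'
    rw [a_self S]
    simp only [abs_zero]
    positivity
  · intro g hg h1
    rw [hr, Subgroup.mem_bot] at hg
    exact absurd hg h1

theorem rotN_sUnion {c : Set (Set ι)} (hc : IsChain (· ⊆ ·) c) (hne : c.Nonempty)
    {g : G} (hg : g ∈ rotN r (⋃₀ c)) : ∃ W ∈ c, g ∈ rotN r W := by
  unfold rotN at hg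
  induction hg using Subgroup.closure_induction with
  | mem x hx =>
    obtain ⟨h, ⟨W, hW, hh⟩, rfl⟩ := hx
    exact ⟨W, hW, Subgroup.subset_closure ⟨h, hh, rfl⟩⟩
  | one =>
    obtain ⟨W, hW⟩ := hne
    exact ⟨W, hW, Subgroup.one_mem _⟩
  | mul x y _ _ ihx ihy =>
    obtain ⟨W, hW, hx⟩ := ihx
    obtain ⟨W', hW', hy⟩ := ihy
    rcases hc.total hW hW' with h | h
    · exact ⟨W', hW', Subgroup.mul_mem _ (rotN_mono h hx) hy⟩
    · exact ⟨W, hW, Subgroup.mul_mem _ hx (rotN_mono h hy)⟩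
  | inv x _ ih =>
    obtain ⟨W, hW, hx⟩ := ih
    exact ⟨W, hW, Subgroup.inv_mem _ hx⟩

theorem U_sUnion {c : Set (Set ι)} (hc : IsChain (· ⊆ ·) c) (hne : c.Nonempty)
    {p x : X} (hx : x ∈ U r O p (⋃₀ c)) : ∃ W ∈ c, x ∈ U r O p W := by
  rcases hx with ⟨g, hg, rfl⟩ | ⟨h, ⟨W, hW, hh⟩, hx⟩
  · obtain ⟨W, hW, hg⟩ := rotN_sUnion hc hne hg
    exact ⟨W, hW, Or.inl ⟨g, hg, rfl⟩⟩
  · exact ⟨W, hW, Or.inr ⟨h, hh, hx⟩⟩

theorem good_sUnion {p : X}
    {c : Set (Set ι)} (hcg : ∀ W ∈ c, Good r a O n θ K p W) (hc : IsChain (· ⊆ ·) c)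
    (hne : c.Nonempty) : Good r a O n θ K p (⋃₀ c) := by
  have hdir : ∀ W ∈ c, ∀ W' ∈ c, ∃ W'' ∈ c, W ⊆ W'' ∧ W' ⊆ W'' := by
    intro W hW W' hW'
    rcases hc.total hW hW' with h | h
    · exact ⟨W', hW', h, subset_rfl⟩
    · exact ⟨W, hW, subset_rfl, h⟩
  refine ⟨?_, ?_, ?_⟩
  · rintro h ⟨W, hW, hx⟩ g hg
    obtain ⟨W', hW', hg⟩ := rotN_sUnion hc hne hg
    obtain ⟨W'', hW'', h1, h2⟩ := hdir W hW W' hW'
    exact ⟨W'', hW'', (hcg W'' hW'').inv h (h1 hx) g (rotN_mono h2 hg)⟩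
  · intro z hzc u hu v hv
    obtain ⟨W, hW, hu⟩ := U_sUnion hc hne hu
    obtain ⟨W', hW', hv⟩ := U_sUnion hc hne hv
    obtain ⟨W'', hW'', h1, h2⟩ := hdir W hW W' hW'
    exact (hcg W'' hW'').bd z (fun h => hzc ⟨W'', hW'', h⟩) u (U_mono h1 hu) v (U_mono h2 hv)
  · intro g hg h1
    obtain ⟨W, hW, hg⟩ := rotN_sUnion hc hne hg
    obtain ⟨h, hh, k, hk⟩ := (hcg W hW).grn g hg h1
    exact ⟨h, ⟨W, hW, hh⟩, k, hk⟩

/-- Data for the extension of a good windmill. -/
structure Ext (r : ι → G) (a : ι → X → X → ℤ) (O : ι → Set X) (n θ K : ℤ) (p : X)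
    (W B : Set ι) : Prop where
  good : Good r a O n θ K p W
  Bdisj : ∀ b ∈ B, b ∉ W
  Binv : ∀ b ∈ B, ∀ g ∈ rotN r W, g • b ∈ B
  B1 : ∀ b ∈ B, ∀ u ∈ U r O p W, ∀ b' ∈ B, b' ≠ b → ∀ v ∈ O b', |a b u v| ≤ 2 * K + 7 * θ
  B2 : ∀ z ∉ W, z ∉ B → ∀ u, (u ∈ U r O p W ∨ ∃ b ∈ B, u ∈ O b) →
    ∀ v, (v ∈ U r O p W ∨ ∃ b ∈ B, v ∈ O b) → |a z u v| ≤ 2 * K + 4 * θ

/-- Product of a list. -/
def lp (r : ι → G) (L : List (ι × ℤ)) : G := (L.map fun q => (r q.1) ^ q.2).prod

@[simp] theorem lp_nil : lp r ([] : List (ι × ℤ)) = 1 := rfl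

@[simp] theorem lp_cons (q : ι × ℤ) (L : List (ι × ℤ)) :
    lp r (q :: L) = (r q.1) ^ q.2 * lp r L := by simp [lp]

@[simp] theorem lp_append (L L' : List (ι × ℤ)) :
    lp r (L ++ L') = lp r L * lp r L' := by simp [lp]

/-- Reduced lists. -/
def Red (B : Set ι) (L : List (ι × ℤ)) : Prop :=
  (∀ q ∈ L, q.1 ∈ B ∧ q.2 ≠ 0) ∧ L.IsChain (fun q q' => q.1 ≠ q'.1)

theorem Red.tail {B : Set ι} {q : ι × ℤ} {L : List (ι × ℤ)} (h : Red B (q :: L)) : Red B L :=
  ⟨fun r hr => h.1 r (List.mem_cons_of_mem _ hr), h.2.tail⟩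

theorem lp_conj (S : Sys r a O lt n θ K) (g : G) (L : List (ι × ℤ)) :
    lp r (L.map fun q => (g • q.1, q.2)) = g * lp r L * g⁻¹ := by
  induction L with
  | nil => simp
  | cons q L ih =>
    simp only [List.map_cons, lp_cons, ih]
    rw [S.rconj]
    have : (g * r q.1 * g⁻¹) ^ q.2 = g * (r q.1) ^ q.2 * g⁻¹ := conj_zpow
    rw [this]
    group

theorem Red.conj {B : Set ι} {g : G} (hB : ∀ b ∈ B, g • b ∈ B) {L : List (ι × ℤ)}
    (h : Red B L) : Red B (L.map fun q => (g • q.1, q.2)) := by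
  refine ⟨?_, ?_⟩
  · intro q hq
    obtain ⟨r, hr, rfl⟩ := List.mem_map.1 hq
    exact ⟨hB _ (h.1 r hr).1, (h.1 r hr).2⟩
  · rw [List.isChain_map]
    refine h.2.imp ?_
    intro x y hxy he
    apply hxy
    simpa using he

/-- Normal form in the enlarged group. -/
theorem normal_form (S : Sys r a O lt n θ K) {W B : Set ι}
    (hinv : ∀ b ∈ B, ∀ g ∈ rotN r W, g • b ∈ B) {g : G} (hg : g ∈ rotN r (W ∪ B)) :
    ∃ L : List (ι × ℤ), Red B L ∧ ∃ h ∈ rotN r W, g = lp r L * h := by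
  have key : ∀ b ∈ B, ∀ ε : ℤ, ∀ y : G, (∃ L : List (ι × ℤ), Red B L ∧ ∃ h ∈ rotN r W,
      y = lp r L * h) → ∃ L : List (ι × ℤ), Red B L ∧ ∃ h ∈ rotN r W,
        (r b) ^ ε * y = lp r L * h := by
    rintro b hb ε y ⟨L, hL, h, hh, rfl⟩
    by_cases hε : ε = 0
    · subst hε
      exact ⟨L, hL, h, hh, by simp⟩
    cases L with
    | nil =>
      refine ⟨[(b, ε)], ⟨?_, ?_⟩, h, hh, ?_⟩
      · intro q hq
        rw [List.mem_singleton] at hq
        subst hq
        exact ⟨hb, hε⟩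
      · simp
      · simp
    | cons q L =>
      by_cases hbq : b = q.1
      · subst hbq
        by_cases hk : ε + q.2 = 0
        · refine ⟨L, hL.tail, h, hh, ?_⟩
          rw [lp_cons, ← mul_assoc, ← mul_assoc, ← zpow_add, hk]
          simp
        · refine ⟨(q.1, ε + q.2) :: L, ⟨?_, ?_⟩, h, hh, ?_⟩
          · intro s hs
            rcases List.mem_cons.1 hs with rfl | hs
            · exact ⟨hb, hk⟩
            · exact hL.tail.1 s hs
          · have := hL.2
            cases L with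
            | nil => simp
            | cons s L =>
              rw [List.isChain_cons_cons] at this ⊢
              exact this
          · rw [lp_cons, lp_cons, ← mul_assoc, ← mul_assoc, ← zpow_add]
      · refine ⟨(b, ε) :: q :: L, ⟨?_, ?_⟩, h, hh, ?_⟩
        · intro s hs
          rcases List.mem_cons.1 hs with rfl | hs
          · exact ⟨hb, hε⟩
          · exact hL.1 s hs
        · rw [List.isChain_cons_cons]
          exact ⟨hbq, hL.2⟩
        · rw [lp_cons (L := q :: L)]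
          rw [mul_assoc]
  have key2 : ∀ g' ∈ rotN r W, ∀ y : G, (∃ L : List (ι × ℤ), Red B L ∧ ∃ h ∈ rotN r W,
      y = lp r L * h) → ∃ L : List (ι × ℤ), Red B L ∧ ∃ h ∈ rotN r W,
        g' * y = lp r L * h := by
    rintro g' hg' y ⟨L, hL, h, hh, rfl⟩
    refine ⟨L.map fun q => (g' • q.1, q.2), hL.conj (fun b hb => hinv b hb g' hg'),
      g' * h, Subgroup.mul_mem _ hg' hh, ?_⟩
    rw [lp_conj S]
    group
  unfold rotN at hg
  induction hg using Subgroup.closure_induction_left with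
  | one => exact ⟨[], ⟨by simp, by simp⟩, 1, Subgroup.one_mem _, by simp⟩
  | mul_left x hx y hy ih =>
    obtain ⟨h, hh | hh, rfl⟩ := hx
    · exact key2 _ (Subgroup.subset_closure ⟨h, hh, rfl⟩) y ih
    · have := key h hh 1 y ih
      simpa using this
  | inv_mul_cancel x hx y hy ih =>
    obtain ⟨h, hh | hh, rfl⟩ := hx
    · exact key2 _ (Subgroup.inv_mem _ (Subgroup.subset_closure ⟨h, hh, rfl⟩)) y ih
    · have := key h hh (-1) y ih
      simpa using this

/-- Admissible end points of a list. -/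
def End (r : ι → G) (O : ι → Set X) (p : X) (W B : Set ι) (L : List (ι × ℤ)) (v : X) : Prop :=
  v ∈ U r O p W ∨ ∃ b ∈ B, v ∈ O b ∧ ∀ q, L.getLast? = some q → q.1 ≠ b

theorem End.tail {p : X} {W B : Set ι} {q : ι × ℤ} {L : List (ι × ℤ)} {v : X}
    (h : End r O p W B (q :: L) v) : End r O p W B L v := by
  rcases h with h | ⟨b, hb, hv, h⟩
  · exact Or.inl h
  · refine Or.inr ⟨b, hb, hv, ?_⟩
    intro s hs
    cases L with
    | nil => simp at hs
    | cons t L =>
      apply h s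
      rw [List.getLast?_cons_cons]
      exact hs

theorem big_abs {n k : ℤ} (hn : 0 ≤ n) (hk : k ≠ 0) : n ≤ |k * n| := by
  rw [abs_mul, abs_of_nonneg hn]
  have : 1 ≤ |k| := Int.one_le_abs hk
  nlinarith

/-- The key estimate for reduced lists. -/
theorem estC (S : Sys r a O lt n θ K) (hθ : 0 ≤ θ) (hK : 0 ≤ K)
    (hn : 4 * K + 18 * θ < n) {p : X} {W B : Set ι} (E : Ext r a O n θ K p W B)
    {v : X} (L : List (ι × ℤ)) : ∀ q : ι × ℤ, Red B (q :: L) → End r O p W B (q :: L) v →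
    ∀ u ∈ U r O p W, |a q.1 u (lp r (q :: L) • v) - q.2 * n| ≤ 2 * K + 8 * θ := by
  have hb7 : ∀ b ∈ B, ∀ u ∈ U r O p W, ∀ w ∈ U r O p W, |a b u w| ≤ 2 * K + 7 * θ := by
    intro b hb u hu w hw
    have := E.good.bd b (E.Bdisj b hb) u hu w hw
    omega
  induction L with
  | nil =>
    intro q hL hv u hu
    have hq := hL.1 q (by simp)
    have h1 : |a q.1 u v| ≤ 2 * K + 7 * θ := by
      rcases hv with hv | ⟨b, hb, hv, h⟩
      · exact hb7 _ hq.1 u hu v hv
      · have h2 := h q (by simp)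
        exact E.B1 q.1 hq.1 u hu b hb (Ne.symm h2) v hv
    have h3 : lp r [q] • v = (r q.1) ^ q.2 • v := by simp
    rw [h3, a_zpow S]
    have : a q.1 u v + q.2 * n - q.2 * n = a q.1 u v := by ring
    rw [this]
    omega
  | cons q2 L ih =>
    intro q hL hv u hu
    have hq := hL.1 q (by simp)
    have hq2 := hL.1 q2 (by simp)
    have hne : q.1 ≠ q2.1 := by
      have := hL.2
      rw [List.isChain_cons_cons] at this
      exact this.1
    have IH := ih q2 hL.tail hv.tail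
    set w := lp r (q2 :: L) • v with hw
    have h3 : lp r (q :: q2 :: L) • v = (r q.1) ^ q.2 • w := by
      rw [lp_cons, hw, mul_smul]
    rw [h3, a_zpow S]
    have e1 : a q.1 u w + q.2 * n - q.2 * n = a q.1 u w := by ring
    rw [e1]
    obtain ⟨y, hy⟩ := S.nonempty q.1
    obtain ⟨z, hz⟩ := S.nonempty q2.1
    have h4 := IH u hu
    have h5 := E.B1 q2.1 hq2.1 u hu q.1 hq.1 hne y hy
    have h6 := S.add q2.1 u w y
    have h7 := big_abs (n := n) (by omega) hq2.2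
    have h8 := S.beh q.1 q2.1 hne w y hy z hz
    have h9 := E.B1 q.1 hq.1 u hu q2.1 hq2.1 (Ne.symm hne) z hz
    have h10 := S.add q.1 u w z
    generalize q2.2 * n = t at *
    rw [abs_le] at *
    rcases h8 with h8 | h8
    · constructor <;> omega
    · exfalso
      rw [le_abs] at h7
      rw [abs_le] at h8
      omega

/-- The enlarged windmill. -/
def W' (r : ι → G) (W B : Set ι) : Set ι :=
  {z | ∃ g ∈ rotN r (W ∪ B), ∃ b ∈ W ∪ B, z = g • b}

theorem sub_W' (W B : Set ι) : W ∪ B ⊆ W' r W B := fun b hb =>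
  ⟨1, Subgroup.one_mem _, b, hb, by simp⟩

theorem rotN_W' (S : Sys r a O lt n θ K) (W B : Set ι) : rotN r (W' r W B) = rotN r (W ∪ B) := by
  apply le_antisymm
  · unfold rotN
    rw [Subgroup.closure_le]
    rintro _ ⟨z, ⟨g, hg, b, hb, rfl⟩, rfl⟩
    simp only [SetLike.mem_coe]
    rw [S.rconj]
    exact Subgroup.mul_mem _ (Subgroup.mul_mem _ hg (Subgroup.subset_closure ⟨b, hb, rfl⟩))
      (Subgroup.inv_mem _ hg)
  · exact rotN_mono (sub_W' W B)

theorem W'_inv {W B : Set ι} {z : ι} (hz : z ∈ W' r W B) {g : G}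
    (hg : g ∈ rotN r (W ∪ B)) : g • z ∈ W' r W B := by
  obtain ⟨g', hg', b, hb, rfl⟩ := hz
  exact ⟨g * g', Subgroup.mul_mem _ hg hg', b, hb, by rw [mul_smul]⟩

theorem W'_inv' {W B : Set ι} {z : ι} (hz : z ∉ W' r W B) {g : G}
    (hg : g ∈ rotN r (W ∪ B)) : g⁻¹ • z ∉ W' r W B := by
  intro h
  apply hz
  have := W'_inv h hg
  rwa [smul_inv_smul] at this

/-- The key estimate for axes outside of the enlarged windmill. -/
theorem estD (S : Sys r a O lt n θ K) (hθ : 0 ≤ θ) (hK : 0 ≤ K)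
    (hn : 4 * K + 18 * θ < n) {p : X} {W B : Set ι} (E : Ext r a O n θ K p W B)
    {v : X} (L : List (ι × ℤ)) : Red B L → End r O p W B L v →
    ∀ z ∉ W' r W B, ∀ s t : X, (t ∈ U r O p W ∨ ∃ b ∈ B, t ∈ O b) → |a z s t| ≤ θ →
    (∀ q, L.head? = some q → ∀ u ∈ U r O p W, |a q.1 u s| ≤ 2 * K + 8 * θ) →
    |a z s (lp r L • v)| ≤ 2 * K + 6 * θ := by
  induction L with
  | nil =>
    intro _ hv z hzW s t ht hst _
    have hzW' : z ∉ W := fun h => hzW (sub_W' W B (Or.inl h))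
    have hzB' : z ∉ B := fun h => hzW (sub_W' W B (Or.inr h))
    have hv' : v ∈ U r O p W ∨ ∃ b ∈ B, v ∈ O b := by
      rcases hv with hv | ⟨b, hb, hv, _⟩
      · exact Or.inl hv
      · exact Or.inr ⟨b, hb, hv⟩
    have h1 := E.B2 z hzW' hzB' t ht v hv'
    have h2 := S.add z s t v
    simp only [lp_nil, one_smul]
    rw [abs_le] at *
    constructor <;> omega
  | cons q L ih =>
    intro hL hv z hzW s t ht hst hT1
    have hzW' : z ∉ W := fun h => hzW (sub_W' W B (Or.inl h))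
    have hzB' : z ∉ B := fun h => hzW (sub_W' W B (Or.inr h))
    have hq := hL.1 q (by simp)
    have hzq : z ≠ q.1 := fun h => hzB' (h ▸ hq.1)
    have hC := estC S hθ hK hn E L q hL hv p p_mem_U
    have h1 := hT1 q (by simp) p p_mem_U
    obtain ⟨o, ho⟩ := S.nonempty z
    obtain ⟨y, hy⟩ := S.nonempty q.1
    have h7 := big_abs (n := n) (by omega) hq.2
    -- either the start or the end is far from `z` seen from `q.1`
    by_cases hcase : |a q.1 s o| ≤ θ
    · -- the end point is close, as seen from `z`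
      have h2 := S.beh z q.1 hzq (lp r (q :: L) • v) o ho y hy
      have h3 := S.add q.1 p s o
      have h4 := S.add q.1 p (lp r (q :: L) • v) o
      have h5 := E.B2 z hzW' hzB' t ht y (Or.inr ⟨q.1, hq.1, hy⟩)
      have h6 := S.add z s t y
      have h8 := S.add z s (lp r (q :: L) • v) y
      generalize lp r (q :: L) • v = Y at *
      generalize q.2 * n = T at *
      rw [le_abs] at h7
      rw [abs_le] at hC h1 hcase h5 hst ⊢
      rcases h2 with h2 | h2
      · rw [abs_le] at h2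
        constructor <;> omega
      · exfalso
        rw [abs_le] at h2
        omega
    · have h2 : ∀ y ∈ O q.1, |a z s y| ≤ θ := by
        intro y hy
        rcases S.beh z q.1 hzq s o ho y hy with h | h
        · exact h
        · exact absurd h hcase
      set c := (r q.1) ^ q.2 with hc
      have hcH : c ∈ rotN r (W ∪ B) :=
        rotN_zpow (W := W ∪ B) (Set.mem_union_right W hq.1) q.2
      have h3 : lp r (q :: L) • v = c • (lp r L • v) := by
        rw [lp_cons, mul_smul]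
      have h4 : a z s (c • (lp r L • v)) = a (c⁻¹ • z) (c⁻¹ • s) (lp r L • v) := by
        have := a_inv S z c s (c • (lp r L • v))
        rw [inv_smul_smul] at this
        exact this.symm
      rw [h3, h4]
      refine ih hL.tail hv.tail _ (W'_inv' hzW hcH) (c⁻¹ • s) (c⁻¹ • y)
        (Or.inr ⟨q.1, hq.1, ?_⟩) ?_ ?_
      · have := O_zpow S hy (-q.2)
        rwa [zpow_neg, ← hc] at this
      · rw [a_inv S]
        exact h2 y hy
      · intro q2 hq2 u hu
        obtain ⟨L', rfl⟩ : ∃ L', L = q2 :: L' := by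
          cases L with
          | nil => simp at hq2
          | cons r L' =>
            simp only [List.head?_cons, Option.some.injEq] at hq2
            exact ⟨L', by rw [hq2]⟩
        have hne : q.1 ≠ q2.1 := by
          have := hL.2
          rw [List.isChain_cons_cons] at this
          exact this.1
        have hq2B := (hL.1 q2 (by simp)).1
        obtain ⟨y2, hy2⟩ := S.nonempty q2.1
        have k1 := hT1 q (by simp) u hu
        have k2 := S.beh q2.1 q.1 hne.symm (c⁻¹ • s) y2 hy2 y hy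
        have k3 := E.B1 q.1 hq.1 u hu q2.1 hq2B hne.symm y2 hy2
        have k4 := E.B1 q2.1 hq2B u hu q.1 hq.1 hne y hy
        have k5 := S.add q.1 u (c⁻¹ • s) y2
        have k6 : a q.1 u (c⁻¹ • s) = a q.1 u s - q.2 * n := by
          have := a_zpow S q.1 u s (-q.2)
          rw [zpow_neg, ← hc] at this
          rw [this]
          ring
        have k7 := S.add q2.1 u (c⁻¹ • s) y
        generalize q.2 * n = T at *
        rw [le_abs] at h7
        rw [abs_le] at k1 k3 k4 ⊢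
        rcases k2 with k2 | k2
        · rw [abs_le] at k2
          constructor <;> omega
        · exfalso
          rw [abs_le] at k2
          omega

/-- Axes outside of the enlarged windmill see a small windmill. -/
theorem estE (S : Sys r a O lt n θ K) (hθ : 0 ≤ θ) (hK : 0 ≤ K)
    (hn : 4 * K + 18 * θ < n) {p : X} {W B : Set ι} (E : Ext r a O n θ K p W B) (m : ℕ) :
    ∀ L : List (ι × ℤ), L.length = m → Red B L →
    ∀ z ∉ W' r W B, ∀ u, (u ∈ U r O p W ∨ ∃ b ∈ B, u ∈ O b) →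
    ∀ v, (v ∈ U r O p W ∨ ∃ b ∈ B, v ∈ O b) →
    |a z u (lp r L • v)| ≤ 2 * K + 6 * θ := by
  induction m with
  | zero =>
    intro L hLm hL z hzW u hu v hv
    have hzW' : z ∉ W := fun h => hzW (sub_W' W B (Or.inl h))
    have hzB' : z ∉ B := fun h => hzW (sub_W' W B (Or.inr h))
    rw [List.length_eq_zero_iff] at hLm
    subst hLm
    have := E.B2 z hzW' hzB' u hu v hv
    simp only [lp_nil, one_smul]
    omega
  | succ m ih =>
    intro L hLm hL z hzW u hu v hv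
    obtain ⟨q, L', rfl⟩ : ∃ q L', L = q :: L' := by
      cases L with
      | nil => simp at hLm
      | cons q L' => exact ⟨q, L', rfl⟩
    have hq := hL.1 q (by simp)
    by_cases hu1 : u ∈ O q.1
    · -- remove the first rotation
      set c := (r q.1) ^ q.2 with hc
      have hcH : c ∈ rotN r (W ∪ B) :=
        rotN_zpow (W := W ∪ B) (Set.mem_union_right W hq.1) q.2
      have h3 : lp r (q :: L') • v = c • (lp r L' • v) := by
        rw [lp_cons, mul_smul]
      have h4 : a z u (c • (lp r L' • v)) = a (c⁻¹ • z) (c⁻¹ • u) (lp r L' • v) := by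
        have := a_inv S z c u (c • (lp r L' • v))
        rw [inv_smul_smul] at this
        exact this.symm
      rw [h3, h4]
      refine ih L' (by simpa using hLm) hL.tail _ (W'_inv' hzW hcH) (c⁻¹ • u)
        (Or.inr ⟨q.1, hq.1, ?_⟩) v hv
      have := O_zpow S hu1 (-q.2)
      rwa [zpow_neg, ← hc] at this
    by_cases hv1 : ∃ s, (q :: L').getLast? = some s ∧ v ∈ O s.1
    · obtain ⟨s, hs, hv1⟩ := hv1
      obtain ⟨L'', hL''⟩ := List.getLast?_eq_some_iff.1 hs
      rw [hL''] at hLm hL ⊢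
      have hrB := hL.1 s (by simp)
      have e : lp r (L'' ++ [s]) • v = lp r L'' • ((r s.1) ^ s.2 • v) := by
        simp [mul_smul]
      rw [e]
      refine ih L'' (by simpa using hLm) ⟨?_, ?_⟩ z hzW u hu _ (Or.inr ⟨s.1, hrB.1, ?_⟩)
      · intro q hq
        exact hL.1 q (by simp [hq])
      · exact hL.2.left_of_append
      · exact O_zpow S hv1 _
    · have hend : End r O p W B (q :: L') v := by
        rcases hv with hv | ⟨b, hb, hv⟩
        · exact Or.inl hv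
        · refine Or.inr ⟨b, hb, hv, ?_⟩
          intro s hs he
          exact hv1 ⟨s, hs, he ▸ hv⟩
      refine estD S hθ hK hn E (q :: L') hL hend z hzW u u hu ?_ ?_
      · rw [a_self S]
        simpa using hθ
      · intro s hs w hw
        simp only [List.head?_cons, Option.some.injEq] at hs
        subst hs
        rcases hu with hu | ⟨b, hb, hu⟩
        · have := E.good.bd q.1 (E.Bdisj q.1 hq.1) w hw u hu
          omega
        · have hne : b ≠ q.1 := fun h => hu1 (h ▸ hu)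
          have := E.B1 q.1 hq.1 w hw b hb hne u hu
          omega

theorem U_inv (S : Sys r a O lt n θ K) {p : X} {W B : Set ι}
    (E : Ext r a O n θ K p W B) {g : G} (hg : g ∈ rotN r W) {u : X}
    (hu : u ∈ U r O p W ∨ ∃ b ∈ B, u ∈ O b) :
    g • u ∈ U r O p W ∨ ∃ b ∈ B, g • u ∈ O b := by
  rcases hu with (⟨g', hg', rfl⟩ | ⟨h, hh, hu⟩) | ⟨b, hb, hu⟩
  · exact Or.inl (Or.inl ⟨g * g', Subgroup.mul_mem _ hg hg', by rw [mul_smul]⟩)
  · exact Or.inl (Or.inr ⟨g • h, E.good.inv h hh g hg, S.Oequiv h g u hu⟩)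
  · exact Or.inr ⟨g • b, E.Binv b hb g hg, S.Oequiv b g u hu⟩

theorem U_W' (S : Sys r a O lt n θ K) {p : X} {W B : Set ι}
    {u : X} (hu : u ∈ U r O p (W' r W B)) :
    ∃ g ∈ rotN r (W ∪ B), ∃ v, (v ∈ U r O p W ∨ ∃ b ∈ B, v ∈ O b) ∧ u = g • v := by
  rcases hu with ⟨g, hg, rfl⟩ | ⟨h, ⟨g, hg, b, hb, rfl⟩, hu⟩
  · rw [rotN_W' S] at hg
    exact ⟨g, hg, p, Or.inl p_mem_U, rfl⟩
  · refine ⟨g, hg, g⁻¹ • u, ?_, by rw [smul_inv_smul]⟩
    have := O_inv S b g hu
    rcases hb with hb | hb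
    · exact Or.inl (Or.inr ⟨b, hb, this⟩)
    · exact Or.inr ⟨b, hb, this⟩

/-- The enlarged windmill is good. -/
theorem ext_good (S : Sys r a O lt n θ K) (hθ : 0 ≤ θ) (hK : 0 ≤ K)
    (hn : 4 * K + 18 * θ < n) {p : X} {W B : Set ι} (E : Ext r a O n θ K p W B) :
    Good r a O n θ K p (W' r W B) := by
  refine ⟨?_, ?_, ?_⟩
  · intro h hh g hg
    rw [rotN_W' S] at hg
    exact W'_inv hh hg
  · intro z hzW u hu v hv
    obtain ⟨g, hg, u', hu', rfl⟩ := U_W' S hu
    obtain ⟨g', hg', v', hv', rfl⟩ := U_W' S hv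
    have h1 : a z (g • u') (g' • v') = a (g⁻¹ • z) u' ((g⁻¹ * g') • v') := by
      have := a_inv S z g (g • u') (g' • v')
      rw [inv_smul_smul, ← mul_smul] at this
      exact this.symm
    rw [h1]
    obtain ⟨L, hL, h, hh, he⟩ := normal_form S E.Binv
      (Subgroup.mul_mem _ (Subgroup.inv_mem _ hg) hg')
    rw [he, mul_smul]
    exact estE S hθ hK hn E _ L rfl hL _ (W'_inv' hzW hg) u' hu' _ (U_inv S E hh hv')
  · intro g hg h1
    rw [rotN_W' S] at hg
    obtain ⟨L, hL, h, hh, rfl⟩ := normal_form S E.Binv hg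
    cases L with
    | nil =>
      rw [lp_nil, one_mul] at h1 ⊢
      obtain ⟨k, hk, m, hm⟩ := E.good.grn h hh h1
      exact ⟨k, sub_W' W B (Or.inl hk), m, hm⟩
    | cons q L =>
      have hq := hL.1 q (by simp)
      refine ⟨q.1, sub_W' W B (Or.inr hq.1), q.2, hq.2, ?_⟩
      have := estC S hθ hK hn E L q hL (v := h • p) (Or.inl (Or.inl ⟨h, hh, rfl⟩)) p p_mem_U
      rwa [← mul_smul] at this

/-- Step A. -/
theorem extA (S : Sys r a O lt n θ K) (hθ : 0 ≤ θ) (hK : 0 ≤ K)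
    {p : X} {W : Set ι} (hW : Good r a O n θ K p W) :
    Ext r a O n θ K p W {z | z ∉ W ∧ ∃ u ∈ U r O p W, ∃ v ∈ U r O p W,
      2 * θ < |a z u v|} := by
  have key : ∀ z ∉ W, ∀ b ∈ {z | z ∉ W ∧ ∃ u ∈ U r O p W, ∃ v ∈ U r O p W,
      2 * θ < |a z u v|}, b ≠ z → ∃ u ∈ U r O p W, ∀ v ∈ O b, |a z u v| ≤ θ := by
    rintro z hzW b ⟨hbW, u, hu, v, hv, huv⟩ hne
    obtain ⟨o, ho⟩ := S.nonempty z
    by_cases h1 : |a b u o| ≤ θ
    · refine ⟨v, hv, fun y hy => ?_⟩
      rcases S.beh z b hne.symm v o ho y hy with h | h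
      · exact h
      · exfalso
        have h2 := S.add b u v o
        rw [abs_le] at h h1
        rw [lt_abs] at huv
        omega
    · refine ⟨u, hu, fun y hy => ?_⟩
      rcases S.beh z b hne.symm u o ho y hy with h | h
      · exact h
      · exact absurd h h1
  refine ⟨hW, fun z hz => hz.1, ?_, ?_, ?_⟩
  · rintro z ⟨hzW, u, hu, v, hv, huv⟩ g hg
    refine ⟨?_, g • u, ?_, g • v, ?_, ?_⟩
    · intro h
      apply hzW
      have := hW.inv _ h g⁻¹ (Subgroup.inv_mem _ hg)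
      rwa [inv_smul_smul] at this
    · rcases hu with ⟨g', hg', rfl⟩ | ⟨h, hh, hu⟩
      · exact Or.inl ⟨g * g', Subgroup.mul_mem _ hg hg', by rw [mul_smul]⟩
      · exact Or.inr ⟨g • h, hW.inv h hh g hg, S.Oequiv h g u hu⟩
    · rcases hv with ⟨g', hg', rfl⟩ | ⟨h, hh, hv⟩
      · exact Or.inl ⟨g * g', Subgroup.mul_mem _ hg hg', by rw [mul_smul]⟩
      · exact Or.inr ⟨g • h, hW.inv h hh g hg, S.Oequiv h g v hv⟩
    · rw [S.equiv z]
      exact huv
  · intro b hb u hu b' hb' hne v hv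
    obtain ⟨u0, hu0, h⟩ := key b hb.1 b' hb' hne
    have h1 := h v hv
    have h2 := hW.bd b hb.1 u hu u0 hu0
    have h3 := S.add b u u0 v
    rw [abs_le] at *
    constructor <;> omega
  · intro z hzW hzB u hu v hv
    have hsm : ∀ u ∈ U r O p W, ∀ v ∈ U r O p W, |a z u v| ≤ 2 * θ := by
      intro u hu v hv
      by_contra hcon
      push Not at hcon
      exact hzB ⟨hzW, u, hu, v, hv, hcon⟩
    have near : ∀ u, (u ∈ U r O p W ∨ ∃ b ∈ {z | z ∉ W ∧ ∃ u ∈ U r O p W,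
        ∃ v ∈ U r O p W, 2 * θ < |a z u v|}, u ∈ O b) →
        ∃ u0 ∈ U r O p W, |a z u0 u| ≤ θ := by
      rintro u (hu | ⟨b, hb, hu⟩)
      · exact ⟨u, hu, by rw [a_self S]; simpa using hθ⟩
      · obtain ⟨u0, hu0, h⟩ := key z hzW b hb (fun h => hzB (h ▸ hb))
        exact ⟨u0, hu0, h u hu⟩
    obtain ⟨u0, hu0, h1⟩ := near u hu
    obtain ⟨v0, hv0, h2⟩ := near v hv
    have h3 := hsm u0 hu0 v0 hv0
    have h4 := S.add z u0 u v
    have h5 := S.add z u0 v0 v
    rw [abs_le] at *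
    constructor <;> omega

/-- Step B. -/
theorem extB (S : Sys r a O lt n θ K) (hθ : 0 ≤ θ) (hK : 0 ≤ K)
    {p : X} {W : Set ι} (hW : Good r a O n θ K p W)
    (hsm : ∀ z ∉ W, ∀ u ∈ U r O p W, ∀ v ∈ U r O p W, |a z u v| ≤ 2 * θ)
    {z0 : ι} (hz0W : z0 ∉ W) (hmin : ∀ z ∉ W, ¬ lt p z z0) :
    Ext r a O n θ K p W {z | ∃ g ∈ rotN r W, z = g • z0} := by
  have hinvW : ∀ z, z ∉ W → ∀ g ∈ rotN r W, g • z ∉ W := by
    intro z hz g hg h
    apply hz
    have := hW.inv _ h g⁻¹ (Subgroup.inv_mem _ hg)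
    rwa [inv_smul_smul] at this
  -- the main estimate
  have key : ∀ z ∉ W, ∀ g ∈ rotN r W, g • z0 ≠ z → ∀ v ∈ O (g • z0),
      |a z (g • p) v| ≤ K := by
    intro z hzW g hg hne v hv
    by_contra hcon
    push Not at hcon
    have h1 := S.sep (g • z0) z hne (g • p) v hv hcon
    have h2 : lt (g • p) (g • (g⁻¹ • z)) (g • z0) := by rwa [smul_inv_smul]
    exact hmin _ (hinvW z hzW g⁻¹ (Subgroup.inv_mem _ hg)) (S.lt_equiv g p _ _ h2)
  have key' : ∀ z ∉ W, ∀ b ∈ {z | ∃ g ∈ rotN r W, z = g • z0}, b ≠ z →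
      ∀ v ∈ O b, ∃ u ∈ U r O p W, |a z u v| ≤ K := by
    rintro z hzW _ ⟨g, hg, rfl⟩ hne v hv
    exact ⟨g • p, Or.inl ⟨g, hg, rfl⟩, key z hzW g hg hne v hv⟩
  have hBW : ∀ b ∈ {z | ∃ g ∈ rotN r W, z = g • z0}, b ∉ W := by
    rintro _ ⟨g, hg, rfl⟩
    exact hinvW z0 hz0W g hg
  refine ⟨hW, hBW, ?_, ?_, ?_⟩
  · rintro _ ⟨g, hg, rfl⟩ g' hg'
    exact ⟨g' * g, Subgroup.mul_mem _ hg' hg, by rw [mul_smul]⟩
  · intro b hb u hu b' hb' hne v hv
    obtain ⟨u0, hu0, h⟩ := key' b (hBW b hb) b' hb' hne v hv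
    have h2 := hsm b (hBW b hb) u hu u0 hu0
    have h3 := S.add b u u0 v
    rw [abs_le] at *
    constructor <;> omega
  · intro z hzW hzB u hu v hv
    have near : ∀ u, (u ∈ U r O p W ∨ ∃ b ∈ {z | ∃ g ∈ rotN r W, z = g • z0}, u ∈ O b) →
        ∃ u0 ∈ U r O p W, |a z u0 u| ≤ K := by
      rintro u (hu | ⟨b, hb, hu⟩)
      · exact ⟨u, hu, by rw [a_self S]; simpa using hK⟩
      · exact key' z hzW b hb (fun h => hzB (h ▸ hb)) u hu
    obtain ⟨u0, hu0, h1⟩ := near u hu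
    obtain ⟨v0, hv0, h2⟩ := near v hv
    have h3 := hsm z hzW u0 hu0 v0 hv0
    have h4 := S.add z u0 u v
    have h5 := S.add z u0 v0 v
    rw [abs_le] at *
    constructor <;> omega

/-- **Windmill lemma**, general form. -/
theorem windmill (S : Sys r a O lt n θ K) (hθ : 0 ≤ θ) (hK : 0 ≤ K)
    (hn : 4 * K + 18 * θ < n) :
    ∀ g ∈ Subgroup.closure (Set.range r), g ≠ 1 → ∀ x : X, ∃ i : ι, ∃ k : ℤ, k ≠ 0 ∧
      |a i x (g • x) - k * n| ≤ 2 * K + 8 * θ := by
  intro g hg h1 x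
  obtain ⟨W, hW⟩ := zorn_subset {W | Good r a O n θ K x W} (by
    intro c hc hchain
    rcases c.eq_empty_or_nonempty with rfl | hne
    · exact ⟨∅, good_empty S hθ hK x, by simp⟩
    · exact ⟨⋃₀ c, good_sUnion (fun W hW => hc hW) hchain hne,
        fun W hW => Set.subset_sUnion_of_mem hW⟩)
  have hWg : Good r a O n θ K x W := hW.prop
  have hWP : W = Set.univ := by
    by_contra hne
    obtain ⟨z, hzW⟩ : ∃ z, z ∉ W := by
      by_contra hcon
      push Not at hcon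
      exact hne (Set.eq_univ_of_forall hcon)
    have fin : ∀ B : Set ι, Ext r a O n θ K x W B → B.Nonempty → False := by
      rintro B E ⟨b, hb⟩
      have hg' := ext_good S hθ hK hn E
      have h2 : W ⊆ W' r W B := fun w hw => sub_W' W B (Or.inl hw)
      have h3 := hW.le_of_ge (y := W' r W B) hg' h2
      exact E.Bdisj b hb (h3 (sub_W' W B (Or.inr hb)))
    by_cases hA : ∃ z, z ∉ W ∧ ∃ u ∈ U r O x W, ∃ v ∈ U r O x W, 2 * θ < |a z u v|
    · exact fin _ (extA S hθ hK hWg) hA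
    · have hsm : ∀ z ∉ W, ∀ u ∈ U r O x W, ∀ v ∈ U r O x W, |a z u v| ≤ 2 * θ := by
        intro z hzW u hu v hv
        by_contra hcon
        push Not at hcon
        exact hA ⟨z, hzW, u, hu, v, hv, hcon⟩
      -- choose an axis of minimal distance
      obtain ⟨z0, hz0W, hmin⟩ := (S.wf x).has_min {z | z ∉ W} ⟨z, hzW⟩
      exact fin _ (extB S hθ hK hWg hsm hz0W hmin)
        ⟨z0, 1, Subgroup.one_mem _, by simp⟩
  subst hWP
  have hg' : g ∈ rotN r Set.univ := by
    unfold rotN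
    rwa [Set.image_univ]
  obtain ⟨h, _, k, hk, hb⟩ := hWg.grn g hg' h1
  exact ⟨h, k, hk, hb⟩

end Pool.Agent.GenWindmill
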